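import Pool.Agent.P.MP_b8021b_nt.BJ.All

/-!
Over every number field that contains a square root of minus one and for every nonzero `b`, a
positive proportion of the quadratic twists `y ^ 2 = x ^ 3 + b t ^ 2 x` of the curve
`y ^ 2 = x ^ 3 + b x` have finitely many rational points and an L-function that is meromorphic and
of order zero at one. The twists are counted through the squarefree part `I` of the ideal
generated by `t`.
-/

namespace Pool.Agent.Results.MP_b8021b_nt.AllJ1728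

open WeierstrassCurve NumberField

theorem result (K : Type) [Field K] [NumberField K] (hi : ∃ i : K, i ^ 2 = -1) (b : K)
    (hb : b ≠ 0) :
    ∃ c X₀ : ℝ, 0 < c ∧ ∀ X : ℝ, X₀ ≤ X →
      c * X ≤ (Set.ncard {I : Ideal (𝓞 K) | Squarefree I ∧ (Ideal.absNorm I : ℝ) ≤ X ∧
        ∃ (t : 𝓞 K) (J : Ideal (𝓞 K)), Ideal.span {t} = I * J ^ 2 ∧
          (⟨0, 0, 0, b * (t : K) ^ 2, 0⟩ : WeierstrassCurve K).IsElliptic ∧
          Finite (⟨0, 0, 0, b * (t : K) ^ 2, 0⟩ : WeierstrassCurve K).toAffine.Point ∧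
          ∃ F : ℂ → ℂ, MeromorphicOn F Set.univ ∧
            (∀ s : ℂ, 3 / 2 < s.re →
              LSeriesSummable (fun n =>
                ((⟨0, 0, 0, b * (t : K) ^ 2, 0⟩ : WeierstrassCurve K).LFunction n : ℂ)) s ∧
              F s = (⟨0, 0, 0, b * (t : K) ^ 2, 0⟩ : WeierstrassCurve K).LSeries s) ∧
            meromorphicOrderAt F 1 = 0} : ℝ) := by
  obtain ⟨a, r, hr, e⟩ := IsFractionRing.div_surjective (A := 𝓞 K) b
  have r0 : r ≠ 0 := nonZeroDivisors.ne_zero hr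
  have r1 : (r : K) ≠ 0 := by exact_mod_cast r0
  have e1 : (a : K) = b * r := (div_eq_iff r1).1 e
  have a0 : a ≠ 0 := fun h => mul_ne_zero hb r1 (by rw [← e1, h]; rfl)
  obtain ⟨c, X₀, c0, h⟩ := Pool.Agent.P.MP_b8021b_nt.BJ.all K hi (-(a * r ^ 3))
    (neg_ne_zero.2 (mul_ne_zero a0 (pow_ne_zero 3 r0)))
  refine ⟨c, X₀, c0, fun X hX => (h X hX).trans (Nat.cast_le.2 (Set.ncard_le_ncard ?_ ?_))⟩
  · rintro I ⟨s1, s2, t, J, t0, s3, s4, s5⟩
    have e2 : -(((-(a * r ^ 3) : 𝓞 K) : K) * (t : K) ^ 2) = b * ((r ^ 2 * t : 𝓞 K) : K) ^ 2 := by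
      push_cast
      linear_combination (r : K) ^ 3 * (t : K) ^ 2 * e1
    rw [e2] at s4 s5
    refine ⟨s1, s2, r ^ 2 * t, Ideal.span {r} * J, ?_, ⟨?_⟩, s4, s5⟩
    · rw [← Ideal.span_singleton_mul_span_singleton, ← Ideal.span_singleton_pow,
        show Ideal.span {t} = I * J ^ 2 from s3]
      ring
    have : ∀ u : K, (⟨0, 0, 0, u, 0⟩ : WeierstrassCurve K).Δ = -64 * u ^ 3 := fun u => by
      simp only [Δ, b₂, b₄, b₆, b₈]; ring
    rw [this]
    exact (mul_ne_zero (by norm_num) (pow_ne_zero 3 (mul_ne_zero hb (pow_ne_zero 2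
      (by exact_mod_cast mul_ne_zero (pow_ne_zero 2 r0) t0))))).isUnit
  · exact (Ideal.finite_setOfPred_absNorm_le (S := 𝓞 K) ⌊X⌋₊).subset fun I hI => Nat.le_floor hI.2.1

end Pool.Agent.Results.MP_b8021b_nt.AllJ1728
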