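import Pool.Agent.P.MP_b8021b_nt.VC.All
import Pool.Agent.P.MP_b8021b_nt.VC.XMain

/-!
For every proper geometrically connected scheme `X` over a number field `k`, the group `V(X)`, the
kernel of the norm from `SK₁(X)` to the multiplicative group of `k`, is a torsion group.
-/

namespace Pool.Agent.Results.MP_b8021b_nt.BlochVAllDim

open AlgebraicGeometry CategoryTheory Pool.Agent.P.MP_b8021b_nt.VX Pool.Agent.P.MP_b8021b_nt.VC.All

theorem result (k : Type) [Field k] [NumberField k] (X : Scheme.{0})
    (π : X ⟶ Spec (CommRingCat.of k)) [IsProper π] [GeometricallyConnected π] (D : UnitChain X)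
    (hD : chainNorm π D = 1) : ∃ n : ℕ, 0 < n ∧ n • D ∈ tameBoundaries π :=
  p_mainX t_Crv t_Fin t_Res t_Extp t_Trans t_Weil t_Const k X π D hD

end Pool.Agent.Results.MP_b8021b_nt.BlochVAllDim
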