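import Pool.Agent.P.MP_b8021b_nt.KR.All

/-!
For every smooth projective curve over a number field, with function field `F`, the regulator on
the part of `K₂ F` with trivial tame symbols has rank at least the number of independent regular
differential forms.
-/

namespace Pool.Agent.Results.MP_b8021b_nt.K2RegulatorOnto

open Pool.Agent.P.MP_b8021b_nt.KR
open scoped IntermediateField

theorem result (F : Type) [Field F] [CharZero F]
    (hF : ∃ t : F, Transcendental ℚ t ∧ FiniteDimensional ℚ⟮t⟯ F) (V : Finset (DVal F)) (n : ℕ)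
    (ω : Fin n → Ω[F⁄ℚ]) (hω : LinearIndependent ℚ ω) (hreg : ∀ i, IsRegular (ω i)) :
    ∃ (α : Fin n → K2 F) (c : Fin n → Path F →₀ ℝ) (R : Fin n → K2 F →+ ℝ),
      (∀ (j : Fin n) (p : DVal F), p.Hor ∨ p ∈ V → p.Kills (α j)) ∧
      (∀ i, IsCycle (c i) ∧ IsReg (c i) (R i)) ∧ (Matrix.of fun i j => R i (α j)).det ≠ 0 :=
  All.k_Main F hF V n ω hω hreg

end Pool.Agent.Results.MP_b8021b_nt.K2RegulatorOnto
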