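import Pool.Agent.P.MP_b8021b_nt.CM.OAll

/-!
A Siegel-Weil formula in the Chow group of zero-cycles of an orthogonal Shimura variety.

`S` is the Gram matrix of a lattice of signature `(b, 2)` and Witt index two, `dom S z₀` is the
cone over the Hermitian symmetric domain, and `F` is a tuple of modular forms without common zero
for the principal congruence subgroup of level `N`.  The closure `X` of the image of `φ = [F]` is
for instance the Baily-Borel compactification, a projective toroidal compactification, or an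
image of these.  The special zero-cycle attached to a positive definite `T` of size `b` and a
class `μ` modulo `N` is the sum of the points `x^⊥` over the orbits of `b`-tuples `x` of lattice
vectors with Gram matrix `T` and reduction `μ`.  All of them are, up to torsion, multiples of the
class of one point.
-/

namespace Pool.Agent.Results.MP_b8021b_nt.SiegelWeilChow

open Pool.Agent.P.MP_b8021b_nt.CM Pool.Agent.P.MP_7ebcb6_ag

theorem result (b N n : ℕ) (k : ℤ) (hb : 3 ≤ b) (hN : 3 ≤ N)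
    (S : Matrix (Fin (b + 2)) (Fin (b + 2)) ℤ) (hS : S.IsSymm)
    (z₀ : Fin (b + 2) → ℂ) (hz : z₀ ∈ negCone S)
    (hpos : ∀ x : Fin (b + 2) → ℝ, x ≠ 0 → bf S (fun i => (x i : ℂ)) z₀ = 0 → 0 < bf S x x)
    (e : Fin 2 → Fin (b + 2) → ℚ) (he : LinearIndependent ℚ e)
    (he' : ∀ i l, bf S (e i) (e l) = 0)
    (F : Fin (n + 1) → (Fin (b + 2) → ℂ) → ℂ) (hF : ∀ i, IsForm S z₀ N k (F i))
    (φ : (Fin (b + 2) → ℂ) → oVar S z₀ F)
    (hφ : ∀ z ∈ dom S z₀, ∃ h : (fun i => F i z) ≠ 0, (φ z).1 = Projectivization.mk ℂ _ h) :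
    ∃ o : oVar S z₀ F, ∀ T : Matrix (Fin b) (Fin b) ℤ, T.PosDef →
      ∀ (μ : Matrix (Fin (b + 2)) (Fin b) (ZMod N))
        (R : Finset (Matrix (Fin (b + 2)) (Fin b) ℤ))
        (P : Matrix (Fin (b + 2)) (Fin b) ℤ → Fin (b + 2) → ℂ), IsOSystem S z₀ N T μ R P →
      ∃ t : ℕ, 0 < t ∧ t • (∑ x ∈ R, Finsupp.single (φ (P x)) (1 : ℤ) -
        Finsupp.single o (R.card : ℤ)) ∈ ratTrivial (oVar S z₀ F) :=
  O.finalO O.cvAll O.elAll O.p1All O.oneAll O.surfAll O.insAll O.domS O.gamAll O.uniqAll O.tubeAll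
    O.epsAll O.gfAll O.i1All O.i2All O.invAll O.moveAll O.fr0S O.fibAll O.orbS O.fibreAll hb hN
    ⟨hS, hz, hpos⟩ he he' hF hφ

/-- Systems of representatives always exist. -/
theorem exists_system {b N : ℕ} (hN : 0 < N) {S : Matrix (Fin (b + 2)) (Fin (b + 2)) ℤ}
    (hS : S.IsSymm) {z₀ : Fin (b + 2) → ℂ} (hz : z₀ ∈ negCone S)
    (hpos : ∀ x : Fin (b + 2) → ℝ, x ≠ 0 → bf S (fun i => (x i : ℂ)) z₀ = 0 → 0 < bf S x x)
    {T : Matrix (Fin b) (Fin b) ℤ} (hT : T.PosDef) (μ : Matrix (Fin (b + 2)) (Fin b) (ZMod N)) :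
    ∃ R P, IsOSystem S z₀ N T μ R P :=
  O.sysAll b S z₀ N ⟨hS, hz, hpos⟩ hN T hT μ

/-- The map `φ` exists as soon as the forms have no common zero. -/
theorem exists_map {m n : ℕ} {S : Matrix (Fin m) (Fin m) ℤ} {z₀ : Fin m → ℂ} (hz : z₀ ∈ negCone S)
    (F : Fin (n + 1) → (Fin m → ℂ) → ℂ) (h : ∀ z ∈ dom S z₀, (fun i => F i z) ≠ 0) :
    ∃ φ : (Fin m → ℂ) → oVar S z₀ F,
      ∀ z ∈ dom S z₀, ∃ h : (fun i => F i z) ≠ 0, (φ z).1 = Projectivization.mk ℂ _ h := by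
  classical
  have key : ∀ z (hz : z ∈ dom S z₀), Projectivization.mk ℂ _ (h z hz) ∈ oVar S z₀ F :=
    fun z hz P _ _ hP => hP _ ⟨z, hz, h z hz, rfl⟩
  exact ⟨fun z => if e : z ∈ dom S z₀ then ⟨_, key z e⟩ else ⟨_, key z₀ (mem_connectedComponentIn hz)⟩,
    fun z e => ⟨h z e, by simp only [dif_pos e]⟩⟩

/-- The hypotheses on the lattice hold for the form `x₀² + x₁² + x₂² - x₃² - x₄²`. -/
theorem example_lattice : ∃ (S : Matrix (Fin 5) (Fin 5) ℤ) (z₀ : Fin 5 → ℂ)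
    (e : Fin 2 → Fin 5 → ℚ), S.IsSymm ∧ z₀ ∈ negCone S ∧
    (∀ x : Fin 5 → ℝ, x ≠ 0 → bf S (fun i => (x i : ℂ)) z₀ = 0 → 0 < bf S x x) ∧
    LinearIndependent ℚ e ∧ ∀ i l, bf S (e i) (e l) = 0 := by
  refine ⟨Matrix.diagonal ![1, 1, 1, -1, -1], ![0, 0, 0, 1, Complex.I],
    ![![1, 0, 0, 1, 0], ![0, 1, 0, 0, 1]], Matrix.isSymm_diagonal _, ⟨?_, ?_⟩, fun x hx h => ?_,
    LinearIndependent.pair_iff.2 fun s t h => ⟨by simpa using congrFun h 0,
      by simpa using congrFun h 1⟩, fun i l => ?_⟩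
  · simp [bf, Matrix.mulVec_diagonal, dotProduct, Fin.sum_univ_five]
  · simp [bf, Matrix.mulVec_diagonal, dotProduct, Fin.sum_univ_five]
  · simp [bf, Matrix.mulVec_diagonal, dotProduct, Fin.sum_univ_five, Complex.ext_iff] at h ⊢
    rw [h.1, h.2]
    by_contra hc
    refine hx (funext fun i => ?_)
    fin_cases i <;> simp [h.1, h.2] <;>
      nlinarith [mul_self_nonneg (x 0), mul_self_nonneg (x 1), mul_self_nonneg (x 2)]
  · fin_cases i <;> fin_cases l <;>
      simp [bf, Matrix.mulVec_diagonal, dotProduct, Fin.sum_univ_five]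

end Pool.Agent.Results.MP_b8021b_nt.SiegelWeilChow
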